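import Mathlib

/-!
# Truncated Toeplitz operators: definitions

The unit circle is `ℝ/ℤ` (Mathlib `UnitAddCircle`) with its normalized Haar measure; the function
`z ^ n` is Mathlib `fourier n` (`fourierLp 2 n` as an element of `L²`).
-/

open MeasureTheory AddCircle

namespace Pool.Agent.Helper21.TTO

/-- Normalized arc length (Haar probability measure) on the circle. -/
noncomputable def arc : Measure UnitAddCircle := haarAddCircle

/-- `L²` of the circle (Mathlib's `Lp`, with Mathlib's norm and inner product). -/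
def CircleL2 : Type := Lp ℂ 2 arc

noncomputable instance : NormedAddCommGroup CircleL2 := @Lp.instNormedAddCommGroup _ ℂ _ 2 arc _ _

noncomputable instance : InnerProductSpace ℂ CircleL2 :=
  MeasureTheory.L2.innerProductSpace (𝕜 := ℂ) (E := ℂ) (μ := arc)

/-- The function underlying an element of `L²` (defined up to null sets). -/
noncomputable def fn (f : CircleL2) : UnitAddCircle → ℂ := (show Lp ℂ 2 arc from f)

/-- The function `z ^ n` as an element of `L²`. -/
noncomputable def zpw (n : ℤ) : CircleL2 := (fourierLp 2 n : Lp ℂ 2 haarAddCircle)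

/-- `g = a f` almost everywhere. -/
def IsProduct (g a f : CircleL2) : Prop := ∀ᵐ x ∂arc, fn g x = fn a x * fn f x

/-- `f ∈ L^∞`. -/
def IsEssBounded (f : CircleL2) : Prop := ∃ C : ℝ, ∀ᵐ x ∂arc, ‖fn f x‖ ≤ C

/-- The Hardy space `H²`: the elements of `L²` orthogonal to `z ^ n` for all `n < 0`. -/
noncomputable def hardySpace : Submodule ℂ CircleL2 :=
  (Submodule.span ℂ {g : CircleL2 | ∃ n : ℤ, n < 0 ∧ g = zpw n})ᗮ

/-- `Θ` is a nonconstant inner function: `Θ ∈ H²`, `|Θ| = 1` a.e., and `Θ` is not a.e. equal to a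
constant. -/
def IsNonconstantInner (Θ : CircleL2) : Prop :=
  Θ ∈ hardySpace ∧ (∀ᵐ x ∂arc, ‖fn Θ x‖ = 1) ∧ ¬ ∃ c : ℂ, ∀ᵐ x ∂arc, fn Θ x = c

/-- The model space `K_Θ = H² ⊖ Θ H²`. -/
noncomputable def modelSpace (Θ : CircleL2) : Submodule ℂ CircleL2 :=
  hardySpace ⊓ (Submodule.span ℂ {g : CircleL2 | ∃ h ∈ hardySpace, IsProduct g Θ h})ᗮ

/-- `h = P_Θ (φ f)`: `h` lies in `K_Θ` and `φ f - h` is orthogonal to `K_Θ`. -/
def IsCompression (Θ φ f h : CircleL2) : Prop :=
  h ∈ modelSpace Θ ∧ ∀ g : CircleL2, IsProduct g φ f → g - h ∈ (modelSpace Θ)ᗮ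

/-- `T` is unitarily equivalent to a truncated Toeplitz operator: there are a nonconstant inner
`Θ`, a symbol `φ ∈ L²` and a unitary `U` from `H` onto `K_Θ` such that `U T U⁻¹` is `A^Θ_φ`, that
is, `U (T x) = P_Θ (φ (U x))` whenever `U x` is essentially bounded. -/
def UnitarilyEquivalentToTTO {H : Type*} [NormedAddCommGroup H] [InnerProductSpace ℂ H]
    (T : H →L[ℂ] H) : Prop :=
  ∃ Θ φ : CircleL2, IsNonconstantInner Θ ∧
    ∃ U : H →ₗᵢ[ℂ] CircleL2, Set.range U = (modelSpace Θ : Set CircleL2) ∧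
      ∀ x : H, IsEssBounded (U x) → IsCompression Θ φ (U x) (U (T x))

/-- The Hilbert space direct sum `H ⊕ ℂ` (Mathlib's `WithLp 2`, with Mathlib's norm and inner
product). -/
def PlusC (H : Type*) : Type _ := WithLp 2 (H × ℂ)

section

variable (H : Type*) [NormedAddCommGroup H] [InnerProductSpace ℂ H]

noncomputable instance : NormedAddCommGroup (PlusC H) :=
  WithLp.instProdNormedAddCommGroup 2 H ℂ

noncomputable instance : InnerProductSpace ℂ (PlusC H) :=
  WithLp.instProdInnerProductSpace (𝕜 := ℂ) (E := H) (F := ℂ)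

/-- The inclusion `x ↦ (x, 0)`. -/
noncomputable def inclC : H →L[ℂ] PlusC H :=
  ((WithLp.prodContinuousLinearEquiv 2 ℂ H ℂ).symm : H × ℂ →L[ℂ] WithLp 2 (H × ℂ)) ∘L
    ContinuousLinearMap.inl ℂ H ℂ

/-- The projection `(x, c) ↦ x`. -/
noncomputable def projC : PlusC H →L[ℂ] H := WithLp.fstL 2 ℂ H ℂ

end

/-- The operator `T ⊕ 0` on `H ⊕ ℂ`: `(x, c) ↦ (T x, 0)`. -/
noncomputable def directSumZero {H : Type*} [NormedAddCommGroup H] [InnerProductSpace ℂ H]
    (T : H →L[ℂ] H) : PlusC H →L[ℂ] PlusC H := inclC H ∘L T ∘L projC H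

end Pool.Agent.Helper21.TTO
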