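import Pool.Agent.Helper21.TTODefs

/-!
# A truncated Toeplitz operator `T` on a three-dimensional space such that `T ⊕ 0` is not unitarily
equivalent to a truncated Toeplitz operator

`T` is the Toeplitz matrix with symbol `2 + (z + z⁻¹) + (-1 + i) (z² + z⁻²)`.  If `A = T ⊕ 0` acts on
a (four-dimensional) model space `K`, let `K₀ = {g ∈ K | z g ∈ K}` (codimension one).  For
`P g = g - r z g`, `Q g = z g - r g` with a suitable `0 ≤ r < 1` the maps `P, Q : K₀ → K` preserve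
the inner product and the form of `A` simultaneously, and the kernel vector `w` of `A` is not in the
range of `P`.  Linear algebra with the special `T` then produces `g ≠ 0` with `Q g = c P g`, which is
impossible for functions.
-/

open MeasureTheory AddCircle
open scoped InnerProductSpace ComplexConjugate

namespace Pool.Agent.Helper21.TTO.Aux

/-- `L²` of the circle `ℝ/ℤ ≅ ∂𝔻` with normalized Haar (arc length) measure. -/
abbrev LL : Type := Lp ℂ 2 (haarAddCircle : Measure UnitAddCircle)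

/-- The Hardy space. -/
noncomputable def HH : Submodule ℂ LL :=
  (Submodule.span ℂ {g : LL | ∃ n : ℤ, n < 0 ∧ g = fourierLp 2 n})ᗮ

noncomputable def KK (Θ : LL) : Submodule ℂ LL :=
  HH ⊓ (Submodule.span ℂ
    {g : LL | ∃ h ∈ HH, ∀ᵐ x ∂(haarAddCircle : Measure UnitAddCircle), g x = Θ x * h x})ᗮ

def OldInner (Θ : LL) : Prop :=
  Θ ∈ HH ∧ (∀ᵐ x ∂(haarAddCircle : Measure UnitAddCircle), ‖Θ x‖ = 1) ∧
    ¬ ∃ c : ℂ, ∀ᵐ x ∂(haarAddCircle : Measure UnitAddCircle), Θ x = c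

def OldTTO (Θ φ : LL) (A : KK Θ →L[ℂ] KK Θ) : Prop :=
  ∀ f : KK Θ,
    (∃ C : ℝ, ∀ᵐ x ∂(haarAddCircle : Measure UnitAddCircle), ‖(f : LL) x‖ ≤ C) →
    ∀ g : LL, (∀ᵐ x ∂(haarAddCircle : Measure UnitAddCircle), g x = φ x * (f : LL) x) →
      g - (A f : LL) ∈ (KK Θ)ᗮ

def OldUE {H : Type*} [NormedAddCommGroup H] [InnerProductSpace ℂ H]
    (T : H →L[ℂ] H) : Prop :=
  ∃ Θ φ : LL, OldInner Θ ∧ ∃ A : KK Θ →L[ℂ] KK Θ, OldTTO Θ φ A ∧
    ∃ U : H ≃ₗᵢ[ℂ] KK Θ, ∀ x, U (T x) = A (U x)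

noncomputable def oldSum {H : Type*} [NormedAddCommGroup H] [InnerProductSpace ℂ H]
    (T : H →L[ℂ] H) : WithLp 2 (H × ℂ) →L[ℂ] WithLp 2 (H × ℂ) :=
  ((WithLp.prodContinuousLinearEquiv 2 ℂ H ℂ).symm : (H × ℂ) →L[ℂ] WithLp 2 (H × ℂ)) ∘L
    (T.prodMap (0 : ℂ →L[ℂ] ℂ)) ∘L
    ((WithLp.prodContinuousLinearEquiv 2 ℂ H ℂ) : WithLp 2 (H × ℂ) →L[ℂ] (H × ℂ))

/-! ### multiplication by a unimodular function -/

section mul

variable (a : UnitAddCircle → ℂ)
  (ha : AEStronglyMeasurable a (haarAddCircle : Measure UnitAddCircle))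
  (h1 : ∀ᵐ x ∂(haarAddCircle : Measure UnitAddCircle), ‖a x‖ = 1)

include ha h1 in
theorem memLp_mul (f : LL) : MemLp (fun x => a x * f x) 2
    (haarAddCircle : Measure UnitAddCircle) := by
  refine (Lp.memLp f).congr_norm (ha.mul (Lp.aestronglyMeasurable f)) ?_
  filter_upwards [h1] with x hx
  simp [hx]

noncomputable def mulU : LL →ₗᵢ[ℂ] LL where
  toFun f := (memLp_mul a ha h1 f).toLp _
  map_add' f g := by
    apply Lp.ext
    filter_upwards [(memLp_mul a ha h1 (f + g)).coeFn_toLp, (memLp_mul a ha h1 f).coeFn_toLp,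
      (memLp_mul a ha h1 g).coeFn_toLp, Lp.coeFn_add f g,
      Lp.coeFn_add ((memLp_mul a ha h1 f).toLp _) ((memLp_mul a ha h1 g).toLp _)] with x e1 e2 e3 e4 e5
    rw [e1, e5, Pi.add_apply, e2, e3, e4, Pi.add_apply, mul_add]
  map_smul' c f := by
    apply Lp.ext
    filter_upwards [(memLp_mul a ha h1 (c • f)).coeFn_toLp, (memLp_mul a ha h1 f).coeFn_toLp,
      Lp.coeFn_smul c f,
      Lp.coeFn_smul c ((memLp_mul a ha h1 f).toLp _)] with x e1 e2 e3 e4
    rw [e1]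
    simp only [RingHom.id_apply]
    rw [e4, Pi.smul_apply, e2, e3, Pi.smul_apply, smul_eq_mul, smul_eq_mul]
    ring
  norm_map' f := by
    show ‖(memLp_mul a ha h1 f).toLp _‖ = ‖f‖
    rw [Lp.norm_toLp, Lp.norm_def]
    congr 1
    apply eLpNorm_congr_norm_ae
    filter_upwards [h1] with x hx
    simp [hx]

theorem coeFn_mulU (f : LL) :
    ∀ᵐ x ∂(haarAddCircle : Measure UnitAddCircle), mulU a ha h1 f x = a x * f x :=
  (memLp_mul a ha h1 f).coeFn_toLp

end mul


/-! ### Fourier coefficients and the shift -/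

/-- the exponentials -/
noncomputable abbrev e (n : ℤ) : LL := fourierLp 2 n

theorem coeFn_e (n : ℤ) :
    ∀ᵐ x ∂(haarAddCircle : Measure UnitAddCircle), e n x = fourier n x :=
  coeFn_fourierLp 2 n

theorem ext_coeff {f g : LL} (h : ∀ n, ⟪e n, f⟫_ℂ = ⟪e n, g⟫_ℂ) : f = g := by
  apply (fourierBasis (T := 1)).repr.injective
  ext n
  rw [HilbertBasis.repr_apply_apply, HilbertBasis.repr_apply_apply]
  simpa using h n

theorem inner_e (m n : ℤ) : ⟪e m, e n⟫_ℂ = if m = n then 1 else 0 :=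
  orthonormal_iff_ite.1 orthonormal_fourier m n

theorem mem_H2 {f : LL} : f ∈ HH ↔ ∀ n : ℤ, n < 0 → ⟪e n, f⟫_ℂ = 0 := by
  constructor
  · intro h n hn
    exact (Submodule.mem_orthogonal _ _).1 h _ (Submodule.subset_span ⟨n, hn, rfl⟩)
  · intro h
    refine (Submodule.mem_orthogonal _ _).2 fun u hu => ?_
    induction hu using Submodule.span_induction with
    | mem x hx =>
      obtain ⟨n, hn, rfl⟩ := hx
      exact h n hn
    | zero => simp
    | add x y _ _ hx hy => rw [inner_add_left, hx, hy, add_zero]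
    | smul a x _ hx => rw [inner_smul_left, hx, mul_zero]

theorem e_mem_H2 {n : ℤ} (hn : 0 ≤ n) : e n ∈ HH := by
  refine mem_H2.2 fun m hm => ?_
  rw [inner_e, if_neg (by omega)]

theorem fourier_aesm (n : ℤ) : AEStronglyMeasurable (fun x : UnitAddCircle => fourier n x)
    (haarAddCircle : Measure UnitAddCircle) :=
  (fourier n).continuous.aestronglyMeasurable

theorem norm_fourier_apply (n : ℤ) (x : UnitAddCircle) : ‖fourier n x‖ = 1 := by
  rw [fourier_apply]
  exact Circle.norm_coe _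

/-- multiplication by `z ^ n` -/
noncomputable def Z (n : ℤ) : LL →ₗᵢ[ℂ] LL :=
  mulU (fun x => fourier n x) (fourier_aesm n) (Filter.Eventually.of_forall (norm_fourier_apply n))

theorem coeFn_Z (n : ℤ) (f : LL) :
    ∀ᵐ x ∂(haarAddCircle : Measure UnitAddCircle), Z n f x = fourier n x * f x :=
  coeFn_mulU _ _ _ f

theorem Z_e (m n : ℤ) : Z m (e n) = e (m + n) := by
  apply Lp.ext
  filter_upwards [coeFn_Z m (e n), coeFn_e n, coeFn_e (m + n)] with x e1 e2 e3
  rw [e1, e2, e3, fourier_add]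

theorem Z_Z (m n : ℤ) (f : LL) : Z m (Z n f) = Z (m + n) f := by
  apply Lp.ext
  filter_upwards [coeFn_Z m (Z n f), coeFn_Z n f, coeFn_Z (m + n) f] with x e1 e2 e3
  rw [e1, e2, e3, fourier_add, mul_assoc]

theorem Z_zero (f : LL) : Z 0 f = f := by
  apply Lp.ext
  filter_upwards [coeFn_Z 0 f] with x e1
  rw [e1, fourier_zero, one_mul]

theorem inner_e_Z (m n : ℤ) (f : LL) : ⟪e n, Z m f⟫_ℂ = ⟪e (n - m), f⟫_ℂ := by
  have : e n = Z m (e (n - m)) := by rw [Z_e]; congr 1; omega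
  rw [this, LinearIsometry.inner_map_map]

theorem Z_mem_H2 {m : ℤ} (hm : 0 ≤ m) {f : LL} (hf : f ∈ HH) : Z m f ∈ HH := by
  refine mem_H2.2 fun n hn => ?_
  rw [inner_e_Z]
  exact mem_H2.1 hf _ (by omega)

/-- `z` has no eigenvector in `H²`. -/
theorem no_eigen {f : LL} (hf : f ∈ HH) {c : ℂ} (h : Z 1 f = c • f) : f = 0 := by
  have hrec : ∀ n : ℤ, ⟪e (n - 1), f⟫_ℂ = c * ⟪e n, f⟫_ℂ := by
    intro n
    rw [← inner_e_Z, h, inner_smul_right]
  by_cases hc : c = 0
  · have : ‖Z 1 f‖ = 0 := by rw [h, hc, zero_smul, norm_zero]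
    rw [LinearIsometry.norm_map] at this
    exact norm_eq_zero.1 this
  · have hnat : ∀ k : ℕ, ⟪e ((k : ℤ) - 1), f⟫_ℂ = 0 := by
      intro k
      induction k with
      | zero => exact mem_H2.1 hf _ (by simp)
      | succ k ih =>
        have := hrec k
        rw [ih] at this
        have h2 := (mul_eq_zero.1 this.symm).resolve_left hc
        push_cast
        rw [add_sub_cancel_right]
        exact h2
    apply ext_coeff
    intro n
    rw [inner_zero_right]
    by_cases hn : n < 0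
    · exact mem_H2.1 hf n hn
    · have := hnat (n + 1).toNat
      rw [Int.toNat_of_nonneg (by omega), add_sub_cancel_right] at this
      exact this

/-- the Möbius version -/
theorem no_eigen_mobius {f : LL} (hf : f ∈ HH) {r : ℝ} (hr0 : 0 ≤ r) (hr1 : r < 1) {c : ℂ}
    (h : Z 1 f - (r : ℂ) • f = c • (f - (r : ℂ) • Z 1 f)) : f = 0 := by
  have h2 : (1 + c * r) • Z 1 f = (c + r) • f := by
    linear_combination (norm := module) h
  by_cases hc : (1 : ℂ) + c * r = 0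
  · rw [hc, zero_smul] at h2
    rcases smul_eq_zero.1 h2.symm with h3 | h3
    · exfalso
      have h4 : c = -(r : ℂ) := eq_neg_of_add_eq_zero_left h3
      rw [h4] at hc
      have h5 : (1 : ℝ) - r * r = 0 := by
        have : ((1 - r * r : ℝ) : ℂ) = 0 := by
          push_cast
          rw [← hc]; ring
        exact_mod_cast this
      nlinarith
    · exact h3
  · apply no_eigen hf (c := (c + r) / (1 + c * r))
    rw [div_eq_inv_mul, mul_smul, ← h2, smul_smul, inv_mul_cancel₀ hc, one_smul]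


/-! ### Model spaces -/

section model

variable {Θ : LL} (hΘ1 : ∀ᵐ x ∂(haarAddCircle : Measure UnitAddCircle), ‖Θ x‖ = 1)

noncomputable abbrev TM : LL →ₗᵢ[ℂ] LL := mulU (fun x => Θ x) (Lp.aestronglyMeasurable Θ) hΘ1

theorem TM_Z (n : ℤ) (f : LL) : TM hΘ1 (Z n f) = Z n (TM hΘ1 f) := by
  apply Lp.ext
  filter_upwards [coeFn_mulU _ (Lp.aestronglyMeasurable Θ) hΘ1 (Z n f),
    coeFn_mulU _ (Lp.aestronglyMeasurable Θ) hΘ1 f, coeFn_Z n f, coeFn_Z n (TM hΘ1 f)]
    with x e1 e2 e3 e4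
  rw [e1, e4, e3, e2]
  ring

theorem TM_e (n : ℤ) : TM hΘ1 (e n) = Z n Θ := by
  apply Lp.ext
  filter_upwards [coeFn_mulU _ (Lp.aestronglyMeasurable Θ) hΘ1 (e n), coeFn_e n, coeFn_Z n Θ]
    with x e1 e2 e3
  rw [e1, e3, e2]
  ring

theorem mem_modelSpace {f : LL} :
    f ∈ KK Θ ↔ f ∈ HH ∧ ∀ h ∈ HH, ⟪TM hΘ1 h, f⟫_ℂ = 0 := by
  unfold KK
  rw [Submodule.mem_inf]
  refine and_congr_right fun _ => ?_
  constructor
  · intro h g hg
    refine (Submodule.mem_orthogonal _ _).1 h _ (Submodule.subset_span ⟨g, hg, ?_⟩)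
    exact coeFn_mulU _ (Lp.aestronglyMeasurable Θ) hΘ1 g
  · intro h
    refine (Submodule.mem_orthogonal _ _).2 fun u hu => ?_
    induction hu using Submodule.span_induction with
    | mem x hx =>
      obtain ⟨g, hg, hx⟩ := hx
      have : x = TM hΘ1 g := by
        apply Lp.ext
        filter_upwards [hx, coeFn_mulU _ (Lp.aestronglyMeasurable Θ) hΘ1 g] with t e1 e2
        rw [e1, e2]
      rw [this]
      exact h g hg
    | zero => simp
    | add x y _ _ hx hy => rw [inner_add_left, hx, hy, add_zero]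
    | smul a x _ hx => rw [inner_smul_left, hx, mul_zero]

/-- `H² = ℂ 1 ⊕ z H²`. -/
theorem H2_decomp {h : LL} (hh : h ∈ HH) :
    ∃ h1 ∈ HH, h = ⟪e 0, h⟫_ℂ • e 0 + Z 1 h1 := by
  refine ⟨Z (-1) (h - ⟪e 0, h⟫_ℂ • e 0), mem_H2.2 fun n hn => ?_, ?_⟩
  · rw [inner_e_Z, inner_sub_right, inner_smul_right, inner_e]
    by_cases h0 : n - -1 = 0
    · rw [h0, if_pos rfl]; ring
    · rw [if_neg h0, mem_H2.1 hh _ (by omega)]; ring
  · rw [Z_Z, show (1 : ℤ) + -1 = 0 by norm_num, Z_zero]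
    abel

theorem Z_mem_modelSpace {f : LL} (hf : f ∈ KK Θ) (h0 : ⟪TM hΘ1 (e 0), Z 1 f⟫_ℂ = 0) :
    Z 1 f ∈ KK Θ := by
  obtain ⟨hf1, hf2⟩ := (mem_modelSpace hΘ1).1 hf
  refine (mem_modelSpace hΘ1).2 ⟨Z_mem_H2 (by norm_num) hf1, fun h hh => ?_⟩
  obtain ⟨h1, hh1, hd⟩ := H2_decomp hh
  rw [hd, map_add, map_smul, inner_add_left, inner_smul_left, h0, mul_zero, zero_add, TM_Z,
    LinearIsometry.inner_map_map]
  exact hf2 h1 hh1

/-- essentially bounded functions -/
def bdd : Submodule ℂ LL where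
  carrier := {f | ∃ C : ℝ, ∀ᵐ x ∂(haarAddCircle : Measure UnitAddCircle), ‖f x‖ ≤ C}
  add_mem' := by
    rintro f g ⟨C, hC⟩ ⟨D, hD⟩
    refine ⟨C + D, ?_⟩
    filter_upwards [hC, hD, Lp.coeFn_add f g] with x e1 e2 e3
    rw [e3]
    exact (norm_add_le _ _).trans (add_le_add e1 e2)
  zero_mem' := by
    refine ⟨0, ?_⟩
    filter_upwards [Lp.coeFn_zero ℂ 2 (haarAddCircle : Measure UnitAddCircle)] with x e1
    rw [e1]; simp
  smul_mem' := by
    rintro c f ⟨C, hC⟩
    refine ⟨‖c‖ * C, ?_⟩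
    filter_upwards [hC, Lp.coeFn_smul c f] with x e1 e2
    rw [e2, Pi.smul_apply, norm_smul]
    exact mul_le_mul_of_nonneg_left e1 (norm_nonneg _)

theorem e_mem_bdd (n : ℤ) : e n ∈ bdd := by
  refine ⟨1, ?_⟩
  filter_upwards [coeFn_e n] with x e1
  rw [e1, norm_fourier_apply]

theorem TM_mem_bdd {f : LL} (hf : f ∈ bdd) : TM hΘ1 f ∈ bdd := by
  obtain ⟨C, hC⟩ := hf
  refine ⟨C, ?_⟩
  filter_upwards [hC, hΘ1, coeFn_mulU _ (Lp.aestronglyMeasurable Θ) hΘ1 f] with x e1 e2 e3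
  rw [e3, norm_mul, e2, one_mul]
  exact e1

theorem inner_tsum (x y : LL) : HasSum (fun i => ⟪x, e i⟫_ℂ * ⟪e i, y⟫_ℂ) ⟪x, y⟫_ℂ := by
  have := (fourierBasis (T := 1)).hasSum_inner_mul_inner x y
  simpa using this

/-- the polynomial `P_+ (conj Θ z^n)` -/
noncomputable def pol (n : ℕ) : LL :=
  ∑ k ∈ Finset.range (n + 1), ⟪TM hΘ1 (e k), e n⟫_ℂ • e k

theorem inner_TM_e_eq_zero (hΘ : Θ ∈ HH) {k n : ℤ} (hkn : n < k) :
    ⟪TM hΘ1 (e k), e n⟫_ℂ = 0 := by
  rw [TM_e, ← inner_conj_symm, inner_e_Z, mem_H2.1 hΘ _ (by omega), map_zero]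

theorem inner_TM_pol (hΘ : Θ ∈ HH) (n : ℕ) {h : LL} (hh : h ∈ HH) :
    ⟪TM hΘ1 h, e n⟫_ℂ = ⟪h, pol hΘ1 n⟫_ℂ := by
  set r : LL := (ContinuousLinearMap.adjoint (TM hΘ1).toContinuousLinearMap) (e n) - pol hΘ1 n
    with hr
  have h1 : ⟪h, r⟫_ℂ = 0 := by
    refine HasSum.unique (inner_tsum h r) ?_
    convert hasSum_zero with i
    by_cases hi : i < 0
    · rw [← inner_conj_symm, mem_H2.1 hh i hi]; simp
    · obtain ⟨k, rfl⟩ := Int.eq_ofNat_of_zero_le (not_lt.1 hi)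
      have : ⟪e (k : ℤ), r⟫_ℂ = 0 := by
        rw [hr, inner_sub_right, ContinuousLinearMap.adjoint_inner_right, pol, inner_sum]
        simp only [inner_smul_right, inner_e, LinearIsometry.coe_toContinuousLinearMap]
        by_cases hk : k ∈ Finset.range (n + 1)
        · rw [Finset.sum_eq_single k]
          · simp
          · intro b _ hb
            rw [if_neg (by simpa using hb.symm), mul_zero]
          · intro h; exact absurd hk h
        · rw [Finset.sum_eq_zero]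
          · rw [inner_TM_e_eq_zero hΘ1 hΘ (by simpa using hk)]; simp
          · intro b hb
            rw [if_neg, mul_zero]
            intro hbk
            apply hk
            have : k = b := by exact_mod_cast hbk
            rw [this]; exact hb
      rw [this, mul_zero]
  have h2 : ⟪TM hΘ1 h, e n⟫_ℂ = ⟪h, r + pol hΘ1 n⟫_ℂ := by
    rw [hr, sub_add_cancel, ContinuousLinearMap.adjoint_inner_right]
    rfl
  rw [h2, inner_add_right, h1, zero_add]

theorem pol_mem_H2 (n : ℕ) : pol hΘ1 n ∈ HH :=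
  Submodule.sum_mem _ fun k _ => Submodule.smul_mem _ _ (e_mem_H2 (by positivity))

noncomputable def bvec (n : ℕ) : LL := e n - TM hΘ1 (pol hΘ1 n)

theorem bvec_mem_bdd (n : ℕ) : bvec hΘ1 n ∈ bdd :=
  Submodule.sub_mem _ (e_mem_bdd n) (TM_mem_bdd hΘ1
    (Submodule.sum_mem _ fun k _ => Submodule.smul_mem _ _ (e_mem_bdd k)))

theorem bvec_mem (hΘ : Θ ∈ HH) (n : ℕ) : bvec hΘ1 n ∈ KK Θ := by
  refine (mem_modelSpace hΘ1).2 ⟨?_, fun h hh => ?_⟩
  · refine Submodule.sub_mem _ (e_mem_H2 (by positivity)) ?_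
    rw [pol, map_sum]
    refine Submodule.sum_mem _ fun k _ => ?_
    rw [map_smul, TM_e]
    exact Submodule.smul_mem _ _ (Z_mem_H2 (by positivity) hΘ)
  · rw [bvec, inner_sub_right, LinearIsometry.inner_map_map, inner_TM_pol hΘ1 hΘ n hh, sub_self]

include hΘ1 in
theorem modelSpace_le_bdd (hΘ : Θ ∈ HH) [FiniteDimensional ℂ (KK Θ)] :
    KK Θ ≤ bdd := by
  set S : Submodule ℂ LL := Submodule.span ℂ (Set.range (bvec hΘ1)) with hS
  have hSK : S ≤ KK Θ := by
    rw [hS, Submodule.span_le]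
    rintro _ ⟨n, rfl⟩
    exact bvec_mem hΘ1 hΘ n
  have : FiniteDimensional ℂ S := Submodule.finiteDimensional_of_le hSK
  have hSb : S ≤ bdd := by
    rw [hS, Submodule.span_le]
    rintro _ ⟨n, rfl⟩
    exact bvec_mem_bdd hΘ1 n
  intro f hf
  obtain ⟨s, hs, t, ht, hst⟩ := S.exists_add_mem_mem_orthogonal f
  have htK : t ∈ KK Θ := by
    have : t = f - s := by rw [hst]; abel
    rw [this]
    exact Submodule.sub_mem _ hf (hSK hs)
  have ht0 : t = 0 := by
    apply ext_coeff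
    intro n
    rw [inner_zero_right]
    obtain ⟨ht1, ht2⟩ := (mem_modelSpace hΘ1).1 htK
    by_cases hn : n < 0
    · exact mem_H2.1 ht1 n hn
    · obtain ⟨k, rfl⟩ := Int.eq_ofNat_of_zero_le (not_lt.1 hn)
      have h1 : ⟪bvec hΘ1 k, t⟫_ℂ = 0 :=
        (Submodule.mem_orthogonal _ _).1 ht _ (Submodule.subset_span ⟨k, rfl⟩)
      rw [bvec, inner_sub_left, ht2 _ (pol_mem_H2 hΘ1 k), sub_zero] at h1
      exact h1
  rw [hst, ht0, add_zero]
  exact hSb hs


/-- the vectors of the model space that `z` maps into the model space -/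
noncomputable def K0 (Θ : LL) : Submodule ℂ LL :=
  KK Θ ⊓ (KK Θ).comap (Z 1).toLinearMap

theorem K0_le : K0 Θ ≤ KK Θ := inf_le_left

theorem Z_mem_of_mem_K0 {f : LL} (hf : f ∈ K0 Θ) : Z 1 f ∈ KK Θ := hf.2

/-- the functional cutting out `K0` -/
noncomputable def ell : KK Θ →ₗ[ℂ] ℂ where
  toFun f := ⟪TM hΘ1 (e 0), Z 1 (f : LL)⟫_ℂ
  map_add' f g := by rw [Submodule.coe_add, map_add, inner_add_right]
  map_smul' c f := by
    rw [Submodule.coe_smul, map_smul, inner_smul_right]; rfl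

include hΘ1 in
theorem finrank_K0 [FiniteDimensional ℂ (KK Θ)] :
    Module.finrank ℂ (KK Θ) ≤ Module.finrank ℂ (K0 Θ) + 1 := by
  have h1 := LinearMap.finrank_range_add_finrank_ker (ell hΘ1)
  have h2 : Module.finrank ℂ (LinearMap.range (ell hΘ1)) ≤ 1 := by
    refine (Submodule.finrank_le _).trans ?_
    rw [Module.finrank_self]
  have h3 : (LinearMap.ker (ell hΘ1)).map (KK Θ).subtype ≤ K0 Θ := by
    rintro _ ⟨f, hf, rfl⟩
    exact ⟨f.2, Z_mem_modelSpace hΘ1 f.2 (LinearMap.mem_ker.1 hf)⟩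
  have hfd : FiniteDimensional ℂ (K0 Θ) := Submodule.finiteDimensional_of_le K0_le
  have h4 := Submodule.finrank_mono h3
  rw [Submodule.finrank_map_subtype_eq] at h4
  omega

theorem Z_pow_mem_of_all [FiniteDimensional ℂ (KK Θ)] {w : LL}
    (h : ∀ n : ℕ, Z n w ∈ KK Θ) : w = 0 := by
  set M : Submodule ℂ LL := Submodule.span ℂ (Set.range fun n : ℕ => Z n w) with hM
  have hMK : M ≤ KK Θ := by
    rw [hM, Submodule.span_le]
    rintro _ ⟨n, rfl⟩
    exact h n
  have hinv : ∀ x ∈ M, (Z 1).toLinearMap x ∈ M := by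
    intro x hx
    induction hx using Submodule.span_induction with
    | mem x hx =>
      obtain ⟨n, rfl⟩ := hx
      refine Submodule.subset_span ⟨n + 1, ?_⟩
      show Z ((n + 1 : ℕ) : ℤ) w = Z 1 (Z n w)
      rw [Z_Z]; congr 1; push_cast; ring_nf
    | zero => simp
    | add x y _ _ hx hy => rw [map_add]; exact Submodule.add_mem _ hx hy
    | smul a x _ hx => rw [map_smul]; exact Submodule.smul_mem _ _ hx
  have hfd : FiniteDimensional ℂ M := Submodule.finiteDimensional_of_le hMK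
  by_contra hw
  have hwM : w ∈ M := Submodule.subset_span ⟨0, by simpa using Z_zero w⟩
  have : Nontrivial M := ⟨⟨⟨w, hwM⟩, 0, fun h => hw (congrArg Subtype.val h)⟩⟩
  obtain ⟨c, hc⟩ := Module.End.exists_eigenvalue ((Z 1).toLinearMap.restrict hinv)
  obtain ⟨x, hx⟩ := hc.exists_hasEigenvector
  have hx1 := hx.apply_eq_smul
  have hx2 : Z 1 (x : LL) = c • (x : LL) := congrArg Subtype.val hx1
  have hxH : (x : LL) ∈ HH := (hMK x.2).1
  exact hx.2 (Subtype.ext (no_eigen hxH hx2))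

theorem exists_good_param [FiniteDimensional ℂ (KK Θ)] {w : LL} (hw : w ∈ KK Θ)
    (hw0 : w ≠ 0) : ∃ r : ℝ, 0 ≤ r ∧ r < 1 ∧ ∀ g ∈ K0 Θ, g - (r : ℂ) • Z 1 g ≠ w := by
  by_contra hcon
  push Not at hcon
  apply hw0
  have key : ∀ m : ℕ, ∃ g ∈ K0 Θ, g - ((1 / ((m : ℝ) + 2) : ℝ) : ℂ) • Z 1 g = w := by
    intro m
    apply hcon _ (by positivity)
    rw [div_lt_one (by positivity)]
    linarith
  choose g hg hgw using key
  have hnorm : ∀ m : ℕ, ‖g m - w‖ ≤ ‖w‖ * (2 / ((m : ℝ) + 2)) := by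
    intro m
    have hm : (0 : ℝ) < (m : ℝ) + 2 := by positivity
    have h1 : ‖g m - w‖ = 1 / ((m : ℝ) + 2) * ‖g m‖ := by
      have : g m - w = ((1 / ((m : ℝ) + 2) : ℝ) : ℂ) • Z 1 (g m) := by
        rw [← hgw m]; abel
      rw [this, norm_smul, LinearIsometry.norm_map, Complex.norm_real, Real.norm_eq_abs,
        abs_of_pos (by positivity)]
    have h2 : ‖g m‖ ≤ ‖w‖ + ‖g m - w‖ := by
      have := norm_add_le w (g m - w)
      simpa using this
    have h3 : 1 / ((m : ℝ) + 2) ≤ 1 / 2 := by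
      apply one_div_le_one_div_of_le (by norm_num)
      have : (0 : ℝ) ≤ m := Nat.cast_nonneg m
      linarith
    have h4 : ‖g m‖ ≤ 2 * ‖w‖ := by
      have : 1 / ((m : ℝ) + 2) * ‖g m‖ ≤ 1 / 2 * ‖g m‖ :=
        mul_le_mul_of_nonneg_right h3 (norm_nonneg _)
      linarith
    rw [h1]
    calc 1 / ((m : ℝ) + 2) * ‖g m‖ ≤ 1 / ((m : ℝ) + 2) * (2 * ‖w‖) :=
          mul_le_mul_of_nonneg_left h4 (by positivity)
      _ = ‖w‖ * (2 / ((m : ℝ) + 2)) := by ring
  have hlim : Filter.Tendsto g Filter.atTop (nhds w) := by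
    rw [tendsto_iff_norm_sub_tendsto_zero]
    refine squeeze_zero (fun _ => norm_nonneg _) hnorm ?_
    have h5 : Filter.Tendsto (fun m : ℕ => (m : ℝ) + 2) Filter.atTop Filter.atTop :=
      Filter.tendsto_atTop_add_const_right _ _ tendsto_natCast_atTop_atTop
    have h6 := (h5.const_div_atTop (2 : ℝ)).const_mul ‖w‖
    simpa using h6
  have hind : ∀ n : ℕ, Z n w ∈ KK Θ ∧ ∀ m, Z n (g m) ∈ KK Θ := by
    intro n
    induction n with
    | zero =>
      simp only [Nat.cast_zero, Z_zero]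
      exact ⟨hw, fun m => K0_le (hg m)⟩
    | succ n ih =>
      have h7 : ∀ m, Z (n + 1 : ℕ) (g m) ∈ KK Θ := by
        intro m
        have hm : ((1 / ((m : ℝ) + 2) : ℝ) : ℂ) ≠ 0 := by
          have : (1 / ((m : ℝ) + 2) : ℝ) ≠ 0 := by positivity
          exact_mod_cast this
        have h8 : Z (n + 1 : ℕ) (g m) =
            ((1 / ((m : ℝ) + 2) : ℝ) : ℂ)⁻¹ • (Z n (g m) - Z n w) := by
          have h9 : Z n (g m) - Z n w =
              ((1 / ((m : ℝ) + 2) : ℝ) : ℂ) • Z (n + 1 : ℕ) (g m) := by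
            rw [← map_sub]
            have : g m - w = ((1 / ((m : ℝ) + 2) : ℝ) : ℂ) • Z 1 (g m) := by
              rw [← hgw m]; abel
            rw [this, map_smul, Z_Z]
            push_cast
            rfl
          rw [h9, smul_smul, inv_mul_cancel₀ hm, one_smul]
        rw [h8]
        exact Submodule.smul_mem _ _ (Submodule.sub_mem _ (ih.2 m) ih.1)
      refine ⟨?_, h7⟩
      have hcl : IsClosed (KK Θ : Set LL) := Submodule.closed_of_finiteDimensional _
      exact hcl.mem_of_tendsto (((Z (n + 1 : ℕ)).continuous.tendsto w).comp hlim)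
        (Filter.Eventually.of_forall h7)
  exact Z_pow_mem_of_all fun n => (hind n).1

end model

abbrev E3 : Type := EuclideanSpace ℂ (Fin 3)

noncomputable def Tmat : Matrix (Fin 3) (Fin 3) ℂ :=
  !![2, 1, -1 + Complex.I; 1, 2, 1; -1 + Complex.I, 1, 2]

noncomputable def Top : E3 →L[ℂ] E3 := Matrix.toEuclideanCLM (n := Fin 3) (𝕜 := ℂ) Tmat

theorem Top_apply (x : E3) (i : Fin 3) : Top x i = ∑ j, Tmat i j * x j := by
  rfl

theorem inner_E3 (x y : E3) :
    ⟪x, y⟫_ℂ = conj (x 0) * y 0 + conj (x 1) * y 1 + conj (x 2) * y 2 := by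
  rw [PiLp.inner_apply, Fin.sum_univ_three]
  simp only [RCLike.inner_apply]
  ring

noncomputable def v : Fin 3 → E3 := ![!₂[0, 1, 0], !₂[1, -1, 1], !₂[1, 0, -1]]

noncomputable def lam : Fin 3 → ℂ := ![2, 2 * Complex.I, 6 - 2 * Complex.I]

theorem inner_v_T (i j : Fin 3) : ⟪v i, Top (v j)⟫_ℂ = if i = j then lam i else 0 := by
  rw [inner_E3]
  simp only [Top_apply, Fin.sum_univ_three]
  fin_cases i <;> fin_cases j <;> simp [v, lam, Tmat] <;> ring

theorem adjoint_Top_apply (x : E3) (i : Fin 3) :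
    (ContinuousLinearMap.adjoint Top) x i = ∑ j, conj (Tmat j i) * x j := by
  have : ContinuousLinearMap.adjoint Top =
      Matrix.toEuclideanCLM (n := Fin 3) (𝕜 := ℂ) (star Tmat) := by
    rw [← ContinuousLinearMap.star_eq_adjoint, Top, map_star]
  rw [this]
  rfl

theorem Top_comp (x : E3) :
    Top x 0 = 2 * x 0 + x 1 + (-1 + Complex.I) * x 2 ∧ Top x 1 = x 0 + 2 * x 1 + x 2 ∧
      Top x 2 = (-1 + Complex.I) * x 0 + x 1 + 2 * x 2 := by
  refine ⟨?_, ?_, ?_⟩ <;> rw [Top_apply, Fin.sum_univ_three] <;> simp [Tmat]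

theorem adjoint_Top_comp (x : E3) :
    (ContinuousLinearMap.adjoint Top) x 0 = 2 * x 0 + x 1 + (-1 - Complex.I) * x 2 ∧
    (ContinuousLinearMap.adjoint Top) x 1 = x 0 + 2 * x 1 + x 2 ∧
      (ContinuousLinearMap.adjoint Top) x 2 = (-1 - Complex.I) * x 0 + x 1 + 2 * x 2 := by
  refine ⟨?_, ?_, ?_⟩ <;> rw [adjoint_Top_apply, Fin.sum_univ_three] <;>
    simp [Tmat, Complex.conj_ofNat, sub_eq_add_neg]

theorem conj_lam : conj (lam 0) = 2 ∧ conj (lam 1) = -(2 * Complex.I) ∧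
    conj (lam 2) = 6 + 2 * Complex.I := by
  refine ⟨?_, ?_, ?_⟩ <;> simp [lam, Complex.conj_ofNat]

theorem core {X : Type*} [AddCommGroup X] [Module ℂ X] (p q : X →ₗ[ℂ] E3) (θ s : X →ₗ[ℂ] ℂ)
    (h1 : ∀ g g', ⟪p g, p g'⟫_ℂ + conj (θ g) * θ g' = ⟪q g, q g'⟫_ℂ + conj (s g) * s g')
    (h2 : ∀ g g', ⟪p g, Top (p g')⟫_ℂ = ⟪q g, Top (q g')⟫_ℂ)
    (h3 : Function.Surjective p) :
    ∃ g : X, g ≠ 0 ∧ ∃ c : ℂ, q g = c • p g ∧ s g = c * θ g := by
  choose g hg using fun i => h3 (v i)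
  have hy : ∀ i j, ⟪q (g i), Top (q (g j))⟫_ℂ = if i = j then lam i else 0 := by
    intro i j
    rw [← h2, hg, hg, inner_v_T]
  have hlam : ∀ i, lam i ≠ 0 := by
    intro i
    fin_cases i
    · simp [lam]
    · simp [lam]
    · simp only [lam]
      intro h
      have := congrArg Complex.re h
      norm_num at this
  have hli : LinearIndependent ℂ fun i => q (g i) := by
    rw [Fintype.linearIndependent_iff]
    intro c hc i
    have h4 : ⟪q (g i), Top (∑ j, c j • q (g j))⟫_ℂ = c i * lam i := by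
      rw [map_sum, inner_sum]
      simp only [map_smul, inner_smul_right, hy]
      rw [Finset.sum_eq_single i]
      · rw [if_pos rfl]
      · intro j _ hj
        rw [if_neg (Ne.symm hj), mul_zero]
      · simp
    rw [hc, map_zero, inner_zero_right] at h4
    exact (mul_eq_zero.1 h4.symm).resolve_right (hlam i)
  have hspan : Submodule.span ℂ (Set.range fun i => q (g i)) = ⊤ :=
    hli.span_eq_top_of_card_eq_finrank (by simp)
  have hperp : ∀ u : E3, (∀ i, ⟪q (g i), u⟫_ℂ = 0) → u = 0 := by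
    intro u hu
    have : u ∈ (Submodule.span ℂ (Set.range fun i => q (g i)))ᗮ := by
      refine (Submodule.mem_orthogonal _ _).2 fun x hx => ?_
      induction hx using Submodule.span_induction with
      | mem x hx => obtain ⟨i, rfl⟩ := hx; exact hu i
      | zero => simp
      | add x y _ _ hx hy => rw [inner_add_left, hx, hy, add_zero]
      | smul a x _ hx => rw [inner_smul_left, hx, mul_zero]
    rw [hspan, Submodule.top_orthogonal_eq_bot] at this
    exact (Submodule.mem_bot ℂ).1 this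
  -- `conj λ_j T y_j = λ_j T* y_j`
  have hker : ∀ j, conj (lam j) • Top (q (g j)) =
      lam j • (ContinuousLinearMap.adjoint Top) (q (g j)) := by
    intro j
    rw [← sub_eq_zero]
    apply hperp
    intro i
    rw [inner_sub_right, inner_smul_right, inner_smul_right, hy,
      ContinuousLinearMap.adjoint_inner_right, ← inner_conj_symm, hy]
    by_cases hij : i = j
    · subst hij
      rw [if_pos rfl]; ring
    · rw [if_neg hij, if_neg (Ne.symm hij)]; simp
  have hcomp : ∀ j i, conj (lam j) * Top (q (g j)) i =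
      lam j * (ContinuousLinearMap.adjoint Top) (q (g j)) i := by
    intro j i
    have := congrArg (fun u : E3 => u i) (hker j)
    simpa using this
  have hI := Complex.I_sq
  have lam0 : lam 0 = 2 := rfl
  have lam1 : lam 1 = 2 * Complex.I := rfl
  have lam2 : lam 2 = 6 - 2 * Complex.I := rfl
  have hl0 : ∃ l : ℂ, q (g 0) = l • v 0 := by
    have e0 := hcomp 0 0
    have e2 := hcomp 0 2
    rw [conj_lam.1, (Top_comp _).1, (adjoint_Top_comp _).1, lam0] at e0
    rw [conj_lam.1, (Top_comp _).2.2, (adjoint_Top_comp _).2.2, lam0] at e2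
    have f2 : (q (g 0)).ofLp 2 = 0 := by
      linear_combination (-Complex.I / 4) * e0 + (q (g 0)).ofLp 2 * hI
    have f0 : (q (g 0)).ofLp 0 = 0 := by
      linear_combination (-Complex.I / 4) * e2 + (q (g 0)).ofLp 0 * hI
    refine ⟨(q (g 0)).ofLp 1, ?_⟩
    ext i
    fin_cases i <;> simp [v, f0, f2]
  have hl1 : ∃ l : ℂ, q (g 1) = l • v 1 := by
    have e0 := hcomp 1 0
    have e1 := hcomp 1 1
    rw [conj_lam.2.1, (Top_comp _).1, (adjoint_Top_comp _).1, lam1] at e0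
    rw [conj_lam.2.1, (Top_comp _).2.1, (adjoint_Top_comp _).2.1, lam1] at e1
    have d0 : 2 * (q (g 1)).ofLp 0 + (q (g 1)).ofLp 1 - (q (g 1)).ofLp 2 = 0 := by
      linear_combination (Complex.I / 4) * e0 +
        (2 * (q (g 1)).ofLp 0 + (q (g 1)).ofLp 1 - (q (g 1)).ofLp 2) * hI
    have d1 : (q (g 1)).ofLp 0 + 2 * (q (g 1)).ofLp 1 + (q (g 1)).ofLp 2 = 0 := by
      linear_combination (Complex.I / 4) * e1 +
        ((q (g 1)).ofLp 0 + 2 * (q (g 1)).ofLp 1 + (q (g 1)).ofLp 2) * hI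
    have f1 : (q (g 1)).ofLp 1 = -(q (g 1)).ofLp 0 := by
      linear_combination (1 / 3 : ℂ) * d0 + (1 / 3 : ℂ) * d1
    have f2 : (q (g 1)).ofLp 2 = (q (g 1)).ofLp 0 := by
      linear_combination d1 - 2 * f1
    refine ⟨(q (g 1)).ofLp 0, ?_⟩
    ext i
    fin_cases i <;> simp [v, f1, f2]
  have hl2 : ∃ l : ℂ, q (g 2) = l • v 2 := by
    have e0 := hcomp 2 0
    have e1 := hcomp 2 1
    rw [conj_lam.2.2, (Top_comp _).1, (adjoint_Top_comp _).1, lam2] at e0
    rw [conj_lam.2.2, (Top_comp _).2.1, (adjoint_Top_comp _).2.1, lam2] at e1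
    have d0 : 2 * (q (g 2)).ofLp 0 + (q (g 2)).ofLp 1 + 2 * (q (g 2)).ofLp 2 = 0 := by
      linear_combination (-Complex.I / 4) * e0 +
        (2 * (q (g 2)).ofLp 0 + (q (g 2)).ofLp 1 + 2 * (q (g 2)).ofLp 2) * hI
    have d1 : (q (g 2)).ofLp 0 + 2 * (q (g 2)).ofLp 1 + (q (g 2)).ofLp 2 = 0 := by
      linear_combination (-Complex.I / 4) * e1 +
        ((q (g 2)).ofLp 0 + 2 * (q (g 2)).ofLp 1 + (q (g 2)).ofLp 2) * hI
    have f1 : (q (g 2)).ofLp 1 = 0 := by
      linear_combination (-1 / 3 : ℂ) * d0 + (2 / 3 : ℂ) * d1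
    have f2 : (q (g 2)).ofLp 2 = -(q (g 2)).ofLp 0 := by
      linear_combination d1 - 2 * f1
    refine ⟨(q (g 2)).ofLp 0, ?_⟩
    ext i
    fin_cases i <;> simp [v, f1, f2]
  obtain ⟨l0, hl0⟩ := hl0
  obtain ⟨l1, hl1⟩ := hl1
  obtain ⟨l2, hl2⟩ := hl2
  have n0 : conj l0 * l0 = 1 := by
    have := hy 0 0
    rw [hl0, map_smul, inner_smul_left, inner_smul_right, inner_v_T, if_pos rfl] at this
    have h5 : (conj l0 * l0 - 1) * lam 0 = 0 := by linear_combination this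
    exact sub_eq_zero.1 ((mul_eq_zero.1 h5).resolve_right (hlam 0))
  -- the Gram relations
  have v00 : ⟪v 0, v 0⟫_ℂ = 1 := by rw [inner_E3]; simp [v]
  have v11 : ⟪v 1, v 1⟫_ℂ = 3 := by rw [inner_E3]; simp [v]; norm_num
  have v22 : ⟪v 2, v 2⟫_ℂ = 2 := by rw [inner_E3]; simp [v]; norm_num
  have v01 : ⟪v 0, v 1⟫_ℂ = -1 := by rw [inner_E3]; simp [v]
  have v02 : ⟪v 0, v 2⟫_ℂ = 0 := by rw [inner_E3]; simp [v]
  have v12 : ⟪v 1, v 2⟫_ℂ = 0 := by rw [inner_E3]; simp [v]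
  have n2 : conj l2 * l2 = 1 := by
    have := hy 2 2
    rw [hl2, map_smul, inner_smul_left, inner_smul_right, inner_v_T, if_pos rfl] at this
    have h5 : (conj l2 * l2 - 1) * lam 2 = 0 := by linear_combination this
    exact sub_eq_zero.1 ((mul_eq_zero.1 h5).resolve_right (hlam 2))
  have g00 : conj (θ (g 0)) * θ (g 0) = conj (s (g 0)) * s (g 0) := by
    have := h1 (g 0) (g 0)
    rw [hg, hl0, inner_smul_left, inner_smul_right, v00] at this
    linear_combination this + n0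
  have g22 : conj (θ (g 2)) * θ (g 2) = conj (s (g 2)) * s (g 2) := by
    have := h1 (g 2) (g 2)
    rw [hg, hl2, inner_smul_left, inner_smul_right, v22] at this
    linear_combination this + 2 * n2
  have g01 : -1 + conj (θ (g 0)) * θ (g 1) = -(conj l0 * l1) + conj (s (g 0)) * s (g 1) := by
    have := h1 (g 0) (g 1)
    rw [hg, hg, hl0, hl1, inner_smul_left, inner_smul_right, v01] at this
    linear_combination this
  have g02 : conj (θ (g 0)) * θ (g 2) = conj (s (g 0)) * s (g 2) := by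
    have := h1 (g 0) (g 2)
    rw [hg, hg, hl0, hl2, inner_smul_left, inner_smul_right, v02] at this
    linear_combination this
  have g12 : conj (θ (g 1)) * θ (g 2) = conj (s (g 1)) * s (g 2) := by
    have := h1 (g 1) (g 2)
    rw [hg, hg, hl1, hl2, inner_smul_left, inner_smul_right, v12] at this
    linear_combination this
  have hne : ∀ i, g i ≠ 0 := by
    intro i h
    have h6 := hy i i
    rw [h, map_zero, inner_zero_left, if_pos rfl] at h6
    exact hlam i h6.symm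
  have key : ∀ z : ℂ, conj z * z = 0 → z = 0 := by
    intro z hz
    rcases mul_eq_zero.1 hz with h | h
    · exact (map_eq_zero _).1 h
    · exact h
  by_cases t2 : θ (g 2) = 0
  · refine ⟨g 2, hne 2, l2, by rw [hl2, hg], ?_⟩
    rw [t2, mul_zero]
    apply key
    rw [← g22, t2, mul_zero]
  have s2 : s (g 2) ≠ 0 := by
    intro h
    apply t2
    apply key
    rw [g22, h, mul_zero]
  by_cases t0 : θ (g 0) = 0
  · refine ⟨g 0, hne 0, l0, by rw [hl0, hg], ?_⟩
    rw [t0, mul_zero]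
    apply key
    rw [← g00, t0, mul_zero]
  -- the quotients `s / θ` agree
  have r0 : conj (s (g 0)) = conj (θ (g 0)) * (θ (g 2) / s (g 2)) := by
    field_simp
    exact g02.symm
  have r1 : conj (s (g 1)) = conj (θ (g 1)) * (θ (g 2) / s (g 2)) := by
    field_simp
    exact g12.symm
  set σ : ℂ := θ (g 2) / s (g 2) with hσ
  have r0' : s (g 0) = θ (g 0) * conj σ := by
    have := congrArg conj r0
    simpa using this
  have r1' : s (g 1) = θ (g 1) * conj σ := by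
    have := congrArg conj r1
    simpa using this
  have hσ1 : σ * conj σ = 1 := by
    have h7 : conj (θ (g 0)) * θ (g 0) * (σ * conj σ - 1) = 0 := by
      have := g00
      rw [r0, r0'] at this
      linear_combination -this
    rcases mul_eq_zero.1 h7 with h | h
    · exact absurd (key _ h) t0
    · exact sub_eq_zero.1 h
  have hl01 : conj l0 * l1 = 1 := by
    have := g01
    rw [r0, r1'] at this
    linear_combination this + conj (θ (g 0)) * θ (g 1) * hσ1
  have hl : l1 = l0 := by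
    linear_combination l0 * hl01 - l1 * n0
  refine ⟨θ (g 1) • g 0 - θ (g 0) • g 1, ?_, l0, ?_, ?_⟩
  · intro h
    have h8 : p (θ (g 1) • g 0 - θ (g 0) • g 1) = 0 := by rw [h, map_zero]
    rw [map_sub, map_smul, map_smul, hg, hg] at h8
    have h9 := congrArg (fun u : E3 => u 0) h8
    simp [v] at h9
    exact t0 h9
  · rw [map_sub, map_smul, map_smul, map_sub, map_smul, map_smul, hl0, hl1, hg, hg, hl, smul_sub,
      smul_comm l0, smul_comm l0]
  · rw [map_sub, map_smul, map_smul, map_sub, map_smul, map_smul, r0', r1']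
    simp only [smul_eq_mul]
    ring


/-! ### Toeplitz property -/

theorem toeplitz {Θ φ : LL} (hΘ : Θ ∈ HH)
    (hΘ1 : ∀ᵐ x ∂(haarAddCircle : Measure UnitAddCircle), ‖Θ x‖ = 1)
    [FiniteDimensional ℂ (KK Θ)] {A : KK Θ →L[ℂ] KK Θ}
    (hA : OldTTO Θ φ A) (f g : KK Θ) (f' g' : KK Θ) (hf : (f' : LL) = Z 1 f)
    (hg : (g' : LL) = Z 1 g) : ⟪g', A f'⟫_ℂ = ⟪g, A f⟫_ℂ := by
  have hb := modelSpace_le_bdd hΘ1 hΘ
  obtain ⟨C, hC⟩ := hb f.2
  have hmem : MemLp (fun x => φ x * (f : LL) x) 2 (haarAddCircle : Measure UnitAddCircle) := by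
    refine MemLp.of_le_mul (c := C) (Lp.memLp φ)
      ((Lp.aestronglyMeasurable φ).mul (Lp.aestronglyMeasurable (f : LL))) ?_
    filter_upwards [hC] with x hx
    rw [norm_mul, mul_comm]
    exact mul_le_mul_of_nonneg_right hx (norm_nonneg _)
  set G : LL := hmem.toLp _ with hG
  have hG1 : ∀ᵐ x ∂(haarAddCircle : Measure UnitAddCircle), G x = φ x * (f : LL) x :=
    hmem.coeFn_toLp
  have h1 := hA f ⟨C, hC⟩ G hG1
  have h2 := hA f' (hb f'.2) (Z 1 G) (by
    filter_upwards [hG1, coeFn_Z 1 G, coeFn_Z 1 (f : LL)] with x e1 e2 e3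
    rw [e2, e1, hf, e3]
    ring)
  have h3 := (Submodule.mem_orthogonal _ _).1 h1 g g.2
  have h4 := (Submodule.mem_orthogonal _ _).1 h2 g' g'.2
  rw [inner_sub_right, sub_eq_zero] at h3 h4
  rw [hg, LinearIsometry.inner_map_map, h3, ← hg] at h4
  exact h4.symm

/-- `g ↦ g - r z g` -/
noncomputable def Pmap (Θ : LL) (r : ℝ) : K0 Θ →ₗ[ℂ] KK Θ where
  toFun g := ⟨(g : LL), K0_le g.2⟩ - (r : ℂ) • ⟨Z 1 (g : LL), Z_mem_of_mem_K0 g.2⟩
  map_add' x y := by
    apply Subtype.ext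
    simp only [Submodule.coe_sub, Submodule.coe_add, Submodule.coe_smul, map_add]
    module
  map_smul' c x := by
    apply Subtype.ext
    simp only [Submodule.coe_sub, Submodule.coe_smul, map_smul, RingHom.id_apply]
    module

/-- `g ↦ z g - r g` -/
noncomputable def Qmap (Θ : LL) (r : ℝ) : K0 Θ →ₗ[ℂ] KK Θ where
  toFun g := ⟨Z 1 (g : LL), Z_mem_of_mem_K0 g.2⟩ - (r : ℂ) • ⟨(g : LL), K0_le g.2⟩
  map_add' x y := by
    apply Subtype.ext
    simp only [Submodule.coe_sub, Submodule.coe_add, Submodule.coe_smul, map_add]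
    module
  map_smul' c x := by
    apply Subtype.ext
    simp only [Submodule.coe_sub, Submodule.coe_smul, map_smul, RingHom.id_apply]
    module

theorem inner_mobius {F : Type*} [NormedAddCommGroup F] [InnerProductSpace ℂ F] (r : ℝ)
    (a b a' b' : F) (h : ⟪b, b'⟫_ℂ = ⟪a, a'⟫_ℂ) :
    ⟪a - (r : ℂ) • b, a' - (r : ℂ) • b'⟫_ℂ = ⟪b - (r : ℂ) • a, b' - (r : ℂ) • a'⟫_ℂ := by
  simp only [inner_sub_left, inner_sub_right, inner_smul_left, inner_smul_right,
    Complex.conj_ofReal, h]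
  ring

theorem inner_mobius_A {F : Type*} [NormedAddCommGroup F] [InnerProductSpace ℂ F] (r : ℝ)
    (A : F →L[ℂ] F) (a b a' b' : F) (h : ⟪b, A b'⟫_ℂ = ⟪a, A a'⟫_ℂ) :
    ⟪a - (r : ℂ) • b, A (a' - (r : ℂ) • b')⟫_ℂ =
      ⟪b - (r : ℂ) • a, A (b' - (r : ℂ) • a')⟫_ℂ := by
  simp only [inner_sub_left, inner_sub_right, inner_smul_left, inner_smul_right,
    Complex.conj_ofReal, map_sub, map_smul, h]
  ring

theorem inner_P_Q {Θ : LL} (r : ℝ) (g g' : K0 Θ) :
    ⟪Pmap Θ r g, Pmap Θ r g'⟫_ℂ = ⟪Qmap Θ r g, Qmap Θ r g'⟫_ℂ := by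
  exact inner_mobius r _ _ _ _ ((Z 1).inner_map_map (g : LL) (g' : LL))

theorem inner_A_P_Q {Θ φ : LL} (hΘ : Θ ∈ HH)
    (hΘ1 : ∀ᵐ x ∂(haarAddCircle : Measure UnitAddCircle), ‖Θ x‖ = 1)
    [FiniteDimensional ℂ (KK Θ)] {A : KK Θ →L[ℂ] KK Θ}
    (hA : OldTTO Θ φ A) (r : ℝ) (g g' : K0 Θ) :
    ⟪Pmap Θ r g, A (Pmap Θ r g')⟫_ℂ = ⟪Qmap Θ r g, A (Qmap Θ r g')⟫_ℂ := by
  exact inner_mobius_A r A _ _ _ _ (toeplitz hΘ hΘ1 hA (⟨(g' : LL), K0_le g'.2⟩ : KK Θ)
    (⟨(g : LL), K0_le g.2⟩ : KK Θ)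
    (⟨Z 1 (g' : LL), Z_mem_of_mem_K0 g'.2⟩ : KK Θ)
    (⟨Z 1 (g : LL), Z_mem_of_mem_K0 g.2⟩ : KK Θ) rfl rfl)

theorem Pmap_injective {Θ : LL} {r : ℝ} (hr0 : 0 ≤ r) (hr1 : r < 1) {g : K0 Θ}
    (h : Pmap Θ r g = 0) : g = 0 := by
  have h1 : (g : LL) = (r : ℂ) • Z 1 (g : LL) := by
    have := congrArg (fun x : KK Θ => (x : LL)) h
    simp only [Pmap, LinearMap.coe_mk, AddHom.coe_mk, Submodule.coe_sub, Submodule.coe_smul,
      Submodule.coe_zero] at this
    exact sub_eq_zero.1 this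
  have h2 : ‖(g : LL)‖ = r * ‖(g : LL)‖ := by
    conv_lhs => rw [h1]
    rw [norm_smul, LinearIsometry.norm_map, Complex.norm_real, Real.norm_eq_abs, abs_of_nonneg hr0]
  have h3 : ‖(g : LL)‖ = 0 := by nlinarith [norm_nonneg (g : LL)]
  exact Subtype.ext (norm_eq_zero.1 h3)

theorem not_oldUE : ¬ OldUE (oldSum Top) := by
  rintro ⟨Θ, φ, ⟨hΘ, hΘ1, -⟩, A, hA, U, hU⟩
  have hfd : FiniteDimensional ℂ (KK Θ) := LinearEquiv.finiteDimensional U.toLinearEquiv
  have hrank : Module.finrank ℂ (KK Θ) = 4 := by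
    rw [← LinearEquiv.finrank_eq U.toLinearEquiv,
      LinearEquiv.finrank_eq (WithLp.linearEquiv 2 ℂ (E3 × ℂ))]
    simp
  set w : KK Θ := U (WithLp.toLp 2 ((0 : E3), (1 : ℂ))) with hw
  have hw0 : w ≠ 0 := by
    intro h
    rw [hw, map_eq_zero_iff _ U.injective] at h
    have := congrArg (fun x : WithLp 2 (E3 × ℂ) => x.snd) h
    simp at this
  obtain ⟨r, hr0, hr1, hr⟩ := exists_good_param w.2 (fun h => hw0 (Subtype.ext h))
  have hfd0 : FiniteDimensional ℂ (K0 Θ) := Submodule.finiteDimensional_of_le K0_le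
  set fst : WithLp 2 (E3 × ℂ) →ₗ[ℂ] E3 :=
    LinearMap.fst ℂ E3 ℂ ∘ₗ (WithLp.linearEquiv 2 ℂ (E3 × ℂ)).toLinearMap with hfst
  set snd : WithLp 2 (E3 × ℂ) →ₗ[ℂ] ℂ :=
    LinearMap.snd ℂ E3 ℂ ∘ₗ (WithLp.linearEquiv 2 ℂ (E3 × ℂ)).toLinearMap with hsnd
  set V : KK Θ →ₗ[ℂ] WithLp 2 (E3 × ℂ) := U.symm.toLinearEquiv.toLinearMap with hV
  have hVU : ∀ x, V (U x) = x := fun x => U.symm_apply_apply x
  have hUV : ∀ x, U (V x) = x := fun x => U.apply_symm_apply x
  have hVin : ∀ x y, ⟪V x, V y⟫_ℂ = ⟪x, y⟫_ℂ := fun x y => U.symm.inner_map_map x y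
  have hin : ∀ x y : WithLp 2 (E3 × ℂ), ⟪fst x, fst y⟫_ℂ + conj (snd x) * snd y = ⟪x, y⟫_ℂ := by
    intro x y
    rw [WithLp.prod_inner_apply]
    simp [hfst, hsnd, mul_comm]
  have hin2 : ∀ x y : KK Θ, ⟪fst (V x), Top (fst (V y))⟫_ℂ = ⟪x, A y⟫_ℂ := by
    intro x y
    have h1 : A y = U (oldSum Top (V y)) := by rw [hU, hUV]
    rw [h1, ← hVin, hVU, WithLp.prod_inner_apply]
    simp [hfst, oldSum]
  obtain ⟨g, hg0, c, hc1, hc2⟩ := core (X := K0 Θ) (fst ∘ₗ V ∘ₗ Pmap Θ r) (fst ∘ₗ V ∘ₗ Qmap Θ r)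
    (snd ∘ₗ V ∘ₗ Pmap Θ r) (snd ∘ₗ V ∘ₗ Qmap Θ r)
    (by
      intro g g'
      simp only [LinearMap.comp_apply]
      rw [hin, hin, hVin, hVin]
      exact inner_P_Q r g g')
    (by
      intro g g'
      simp only [LinearMap.comp_apply]
      rw [hin2, hin2]
      exact inner_A_P_Q hΘ hΘ1 hA r g g')
    (by
      have hinj : Function.Injective (fst ∘ₗ V ∘ₗ Pmap Θ r) := by
        rw [← LinearMap.ker_eq_bot, LinearMap.ker_eq_bot']
        intro g hg
        simp only [LinearMap.comp_apply] at hg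
        by_contra hgne
        have h5 : Pmap Θ r g = snd (V (Pmap Θ r g)) • w := by
          rw [← hUV (Pmap Θ r g), hVU, hw, ← map_smul]
          congr 1
          apply (WithLp.linearEquiv 2 ℂ (E3 × ℂ)).injective
          refine Prod.ext ?_ ?_
          · simpa [hfst] using hg
          · simp [hsnd]
        set t := snd (V (Pmap Θ r g)) with ht
        by_cases ht0 : t = 0
        · rw [ht0, zero_smul] at h5
          exact hgne (Pmap_injective hr0 hr1 h5)
        · apply hr ((t⁻¹ • g : K0 Θ) : LL) (t⁻¹ • g : K0 Θ).2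
          have h6 : Pmap Θ r (t⁻¹ • g) = w := by
            rw [map_smul, h5, smul_smul, inv_mul_cancel₀ ht0, one_smul]
          exact congrArg (fun x : KK Θ => (x : LL)) h6
      have hK0 : Module.finrank ℂ (K0 Θ) = Module.finrank ℂ E3 := by
        have h7 := finrank_K0 hΘ1
        have h8 := LinearMap.finrank_le_finrank_of_injective hinj
        have h9 : Module.finrank ℂ E3 = 3 := by simp
        omega
      exact (LinearMap.injective_iff_surjective_of_finrank_eq_finrank hK0).1 hinj)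
  apply hg0
  apply Subtype.ext
  have h10 : Qmap Θ r g = c • Pmap Θ r g := by
    rw [← hUV (Qmap Θ r g), ← hUV (Pmap Θ r g), ← map_smul]
    congr 1
    apply (WithLp.linearEquiv 2 ℂ (E3 × ℂ)).injective
    refine Prod.ext ?_ ?_
    · simpa [hfst] using hc1
    · simpa [hsnd] using hc2
  exact no_eigen_mobius (K0_le g.2).1 hr0 hr1
    (congrArg (fun x : KK Θ => (x : LL)) h10)


/-! ### The operator `Top` is a truncated Toeplitz operator for `Θ = z ^ 3` -/

theorem norm_e3 : ∀ᵐ x ∂(haarAddCircle : Measure UnitAddCircle), ‖e 3 x‖ = 1 := by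
  filter_upwards [coeFn_e 3] with x hx
  rw [hx, norm_fourier_apply]

theorem TM_e3 (f : LL) : TM norm_e3 f = Z 3 f := by
  apply Lp.ext
  filter_upwards [coeFn_mulU _ (Lp.aestronglyMeasurable (e 3)) norm_e3 f, coeFn_e 3, coeFn_Z 3 f]
    with x e1 e2 e3
  rw [e1, e2, e3]

theorem e_mem_K3 (j : Fin 3) : e (j : ℕ) ∈ KK (e 3) := by
  refine (mem_modelSpace norm_e3).2 ⟨e_mem_H2 (by positivity), fun h hh => ?_⟩
  rw [TM_e3, ← inner_conj_symm, inner_e_Z, mem_H2.1 hh, map_zero]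
  have := j.2
  omega

theorem K3_expand {f : LL} (hf : f ∈ KK (e 3)) :
    f = ∑ j : Fin 3, ⟪e (j : ℕ), f⟫_ℂ • e (j : ℕ) := by
  obtain ⟨hf1, hf2⟩ := (mem_modelSpace norm_e3).1 hf
  apply ext_coeff
  intro n
  rw [inner_sum]
  simp only [inner_smul_right, inner_e]
  by_cases hn : n < 0
  · rw [mem_H2.1 hf1 n hn, Finset.sum_eq_zero]
    intro j _
    rw [if_neg (by omega), mul_zero]
  · by_cases hn3 : n < 3
    · obtain ⟨k, rfl⟩ := Int.eq_ofNat_of_zero_le (not_lt.1 hn)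
      have hk : k < 3 := by omega
      rw [Finset.sum_eq_single (⟨k, hk⟩ : Fin 3)]
      · simp
      · intro j _ hj
        rw [if_neg, mul_zero]
        intro h
        apply hj
        apply Fin.ext
        have : k = (j : ℕ) := by exact_mod_cast h
        exact this.symm
      · simp
    · have h1 := hf2 (e (n - 3)) (e_mem_H2 (by omega))
      rw [TM_e3, Z_e, show (3 : ℤ) + (n - 3) = n by ring] at h1
      rw [h1, Finset.sum_eq_zero]
      intro j _
      have := j.2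
      rw [if_neg (by omega), mul_zero]

noncomputable def bv (j : Fin 3) : KK (e 3) := ⟨e (j : ℕ), e_mem_K3 j⟩

theorem bv_orthonormal : Orthonormal ℂ bv := by
  rw [orthonormal_iff_ite]
  intro i j
  have : ⟪bv i, bv j⟫_ℂ = ⟪e (i : ℕ), e (j : ℕ)⟫_ℂ := rfl
  rw [this, inner_e]
  simp [Fin.ext_iff]

theorem bv_span : ⊤ ≤ Submodule.span ℂ (Set.range bv) := by
  intro f _
  have h : f = ∑ j : Fin 3, ⟪e (j : ℕ), (f : LL)⟫_ℂ • bv j := by
    apply Subtype.ext
    rw [Submodule.coe_sum]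
    exact K3_expand f.2
  rw [h]
  exact Submodule.sum_mem _ fun j _ => Submodule.smul_mem _ _ (Submodule.subset_span ⟨j, rfl⟩)

noncomputable def B3 : OrthonormalBasis (Fin 3) ℂ (KK (e 3)) :=
  OrthonormalBasis.mk bv_orthonormal bv_span

theorem B3_apply (j : Fin 3) : B3 j = bv j := by
  rw [B3, OrthonormalBasis.coe_mk]

noncomputable def phi : LL :=
  (2 : ℂ) • e 0 + e 1 + e (-1) + (-1 + Complex.I) • e 2 + (-1 + Complex.I) • e (-2)

theorem inner_e_phi (i j : Fin 3) : ⟪e ((i : ℕ) - (j : ℕ)), phi⟫_ℂ = Tmat i j := by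
  unfold phi
  simp only [inner_add_right, inner_smul_right, inner_e]
  fin_cases i <;> fin_cases j <;> simp [Tmat]

theorem oldUE_Top : OldUE Top := by
  refine ⟨e 3, phi, ⟨e_mem_H2 (by norm_num), norm_e3, ?_⟩,
    ((B3.repr.symm : E3 ≃ₗᵢ[ℂ] KK (e 3)).toContinuousLinearEquiv :
      E3 →L[ℂ] KK (e 3)) ∘L Top ∘L
    ((B3.repr : KK (e 3) ≃ₗᵢ[ℂ] E3).toContinuousLinearEquiv :
      KK (e 3) →L[ℂ] E3), ?_, B3.repr.symm, ?_⟩
  · rintro ⟨c, hc⟩
    have h1 : e 3 = c • e 0 := by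
      apply Lp.ext
      filter_upwards [hc, Lp.coeFn_smul c (e 0), coeFn_e 0] with x e1 e2 e3
      rw [e1, e2, Pi.smul_apply, e3, fourier_zero, smul_eq_mul, mul_one]
    have h3 : ⟪e 3, e 3⟫_ℂ = ⟪e 3, c • e 0⟫_ℂ := congrArg (fun u => ⟪e 3, u⟫_ℂ) h1
    rw [inner_smul_right, inner_e, inner_e] at h3
    norm_num at h3
  · intro f _ g hg
    set x : E3 := B3.repr f with hx
    have hxj : ∀ j, x j = ⟪e ((j : ℕ) : ℤ), (f : LL)⟫_ℂ := by
      intro j
      rw [hx, OrthonormalBasis.repr_apply_apply, B3_apply]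
      rfl
    have hf : (f : LL) = x 0 • e (0 : ℕ) + x 1 • e (1 : ℕ) + x 2 • e (2 : ℕ) := by
      have h1 := K3_expand f.2
      rw [Fin.sum_univ_three] at h1
      rw [hxj, hxj, hxj]
      exact h1
    have hg' : g = x 0 • Z (0 : ℕ) phi + x 1 • Z (1 : ℕ) phi + x 2 • Z (2 : ℕ) phi := by
      apply Lp.ext
      rw [hf] at hg
      filter_upwards [hg,
        Lp.coeFn_add (x 0 • e (0 : ℕ) + x 1 • e (1 : ℕ)) (x 2 • e (2 : ℕ)),
        Lp.coeFn_add (x 0 • e (0 : ℕ)) (x 1 • e (1 : ℕ)),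
        Lp.coeFn_smul (x 0) (e (0 : ℕ)), Lp.coeFn_smul (x 1) (e (1 : ℕ)),
        Lp.coeFn_smul (x 2) (e (2 : ℕ)), coeFn_e (0 : ℕ), coeFn_e (1 : ℕ), coeFn_e (2 : ℕ),
        Lp.coeFn_add (x 0 • Z (0 : ℕ) phi + x 1 • Z (1 : ℕ) phi) (x 2 • Z (2 : ℕ) phi),
        Lp.coeFn_add (x 0 • Z (0 : ℕ) phi) (x 1 • Z (1 : ℕ) phi),
        Lp.coeFn_smul (x 0) (Z (0 : ℕ) phi), Lp.coeFn_smul (x 1) (Z (1 : ℕ) phi),
        Lp.coeFn_smul (x 2) (Z (2 : ℕ) phi), coeFn_Z (0 : ℕ) phi, coeFn_Z (1 : ℕ) phi,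
        coeFn_Z (2 : ℕ) phi] with t h0 h1 h2 h3 h4 h5 h6 h7 h8 h9 h10 h11 h12 h13 h14 h15 h16
      rw [h0, h1, Pi.add_apply, h2, Pi.add_apply, h3, h4, h5, Pi.smul_apply, Pi.smul_apply,
        Pi.smul_apply, h6, h7, h8, h9, Pi.add_apply, h10, Pi.add_apply, h11, h12, h13,
        Pi.smul_apply, Pi.smul_apply, Pi.smul_apply, h14, h15, h16]
      simp only [smul_eq_mul]
      ring
    set A : KK (e 3) →L[ℂ] KK (e 3) :=
      ((B3.repr.symm : E3 ≃ₗᵢ[ℂ] KK (e 3)).toContinuousLinearEquiv :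
        E3 →L[ℂ] KK (e 3)) ∘L Top ∘L
        ((B3.repr : KK (e 3) ≃ₗᵢ[ℂ] E3).toContinuousLinearEquiv :
        KK (e 3) →L[ℂ] E3) with hA
    have hAf : B3.repr (A f) = Top x := by
      simp [hA, hx]
    have hi : ∀ i : Fin 3, ⟪e ((i : ℕ) : ℤ), g - (A f : LL)⟫_ℂ = 0 := by
      intro i
      have h1 : ⟪e ((i : ℕ) : ℤ), (A f : LL)⟫_ℂ = Top x i := by
        rw [← hAf, OrthonormalBasis.repr_apply_apply, B3_apply]
        rfl
      rw [inner_sub_right, h1, Top_apply, Fin.sum_univ_three, hg', inner_add_right,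
        inner_add_right, inner_smul_right, inner_smul_right, inner_smul_right, inner_e_Z,
        inner_e_Z, inner_e_Z]
      have p0 := inner_e_phi i 0
      have p1 := inner_e_phi i 1
      have p2 := inner_e_phi i 2
      simp only [Fin.val_zero, Fin.val_one, Fin.val_two] at p0 p1 p2
      rw [p0, p1, p2]
      ring
    refine (Submodule.mem_orthogonal _ _).2 fun u hu => ?_
    rw [K3_expand hu, sum_inner]
    refine Finset.sum_eq_zero fun i _ => ?_
    rw [inner_smul_left, hi, mul_zero]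
  · intro x
    simp


/-! ### Comparison with the definitions of the statement -/

theorem mem_modelSpace_iff (Θ f : TTO.CircleL2) : f ∈ TTO.modelSpace Θ ↔ (show LL from f) ∈ KK Θ := by
  exact Iff.rfl

/-- a linear isometry onto the model space as a unitary -/
noncomputable def unitaryOf {H : Type*} [NormedAddCommGroup H] [InnerProductSpace ℂ H]
    (Θ : TTO.CircleL2) (U : H →ₗᵢ[ℂ] TTO.CircleL2) (hU : Set.range U = (TTO.modelSpace Θ : Set TTO.CircleL2)) :
    H ≃ₗᵢ[ℂ] KK (show LL from Θ) :=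
  LinearIsometryEquiv.ofSurjective
    ({ toFun := fun x => ⟨(show LL from U x),
          (mem_modelSpace_iff Θ (U x)).1 (hU.subset (Set.mem_range_self x))⟩
       map_add' := fun x y => Subtype.ext (U.map_add x y)
       map_smul' := fun c x => Subtype.ext (U.map_smul c x)
       norm_map' := fun x => U.norm_map x } : H →ₗᵢ[ℂ] KK (show LL from Θ))
    (by
      rintro ⟨y, hy⟩
      obtain ⟨x, hx⟩ := hU.superset ((mem_modelSpace_iff Θ y).2 hy)
      exact ⟨x, Subtype.ext hx⟩)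

theorem old_of_new {H : Type*} [NormedAddCommGroup H] [InnerProductSpace ℂ H]
    {T : H →L[ℂ] H} (h : UnitarilyEquivalentToTTO T) : OldUE T := by
  obtain ⟨Θ, φ, hin, U, hU, hT⟩ := h
  set e' : H ≃ₗᵢ[ℂ] KK (show LL from Θ) := unitaryOf Θ U hU with he'
  refine ⟨Θ, φ, hin, (e'.toContinuousLinearEquiv : H →L[ℂ] KK (show LL from Θ)) ∘L T ∘L
    (e'.symm.toContinuousLinearEquiv : KK (show LL from Θ) →L[ℂ] H), ?_, e', ?_⟩
  · intro f hf g hg
    obtain ⟨x, rfl⟩ := e'.surjective f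
    have h1 := (hT x hf).2 g hg
    have h2 : ((((e'.toContinuousLinearEquiv : H →L[ℂ] KK (show LL from Θ)) ∘L T ∘L
      (e'.symm.toContinuousLinearEquiv : KK (show LL from Θ) →L[ℂ] H)) (e' x) :
        KK (show LL from Θ)) : LL) = (show LL from U (T x)) := by
      simp only [ContinuousLinearMap.comp_apply]
      have h3 : (e'.symm.toContinuousLinearEquiv : KK (show LL from Θ) →L[ℂ] H) (e' x) = x :=
        e'.symm_apply_apply x
      rw [h3]
      rfl
    rw [h2]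
    exact h1
  · intro x
    simp

theorem new_of_old {H : Type*} [NormedAddCommGroup H] [InnerProductSpace ℂ H]
    {T : H →L[ℂ] H} (h : OldUE T) : UnitarilyEquivalentToTTO T := by
  obtain ⟨Θ, φ, hin, A, hA, U, hU⟩ := h
  refine ⟨Θ, φ, hin,
    { toFun := fun x => (show TTO.CircleL2 from (U x : LL))
      map_add' := fun x y => congrArg Subtype.val (U.map_add x y)
      map_smul' := fun c x => congrArg Subtype.val (U.map_smul c x)
      norm_map' := fun x => U.norm_map x }, ?_, ?_⟩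
  · apply Set.Subset.antisymm
    · rintro _ ⟨x, rfl⟩
      exact (mem_modelSpace_iff Θ _).2 (U x).2
    · intro y hy
      obtain ⟨x, hx⟩ := U.surjective ⟨y, (mem_modelSpace_iff Θ y).1 hy⟩
      exact ⟨x, congrArg Subtype.val hx⟩
  · intro x hx
    refine ⟨(mem_modelSpace_iff Θ _).2 (U (T x)).2, fun g hg => ?_⟩
    have h1 := hA (U x) hx g hg
    rw [← hU] at h1
    exact h1

theorem unitarilyEquivalent_Top : UnitarilyEquivalentToTTO Top := new_of_old oldUE_Top

theorem not_unitarilyEquivalent_Top : ¬ UnitarilyEquivalentToTTO (directSumZero Top) := by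
  intro h
  apply not_oldUE
  apply old_of_new (H := WithLp 2 (E3 × ℂ)) (T := oldSum Top)
  exact h

end Pool.Agent.Helper21.TTO.Aux
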